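import Pool.Agent.P.MP_038aca_al.Top.Main

open Pool.Agent.P.MP_038aca_al Pool.Agent.P.MP_038aca_al.Top

/-- The simple-curve diameters `d_n` of the lower central quotients of the fundamental group of the
surface with `g` handles, `k` crosscaps and `p` punctures are bounded by, and eventually equal to,
`limitValue g k p`. -/
theorem Pool.Agent.Results.MP_038aca_al.Curves.result (g k p : ℕ) (hgk : 1 ≤ g ∨ k ≤ 2)
    (X : Type) [TopologicalSpace X] (e : X ≃ₜ Surface g k p) (x₀ : X) :
    (∀ n : ℕ, lcsDiameter (simpleClasses x₀) n ≤ limitValue g k p) ∧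
      ∃ n₀ : ℕ, ∀ n ≥ n₀, lcsDiameter (simpleClasses x₀) n = limitValue g k p :=
  main g k p _ rfl hgk e x₀
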